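import Pool.Agent.Q109.Rook.C

/-!
Every linear form on the radical `J` of a standard parabolic subalgebra of `n × n` matrices over a
field is equivalent, under `R ⋉ (N × N)`, to the form of a rook placement.
-/

set_option autoImplicit false

namespace Pool.Agent.Results.MP_e8bb44_al.RookNormalForm

universe u

variable {n : ℕ} (c : Composition n) (F : Type u) [Field F]

/-- The radical `J`: the matrices supported strictly above the diagonal blocks of the composition
`c`. -/
def J : Submodule F (Matrix (Fin n) (Fin n) F) where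
  carrier := {M | ∀ i j, ¬ c.index i < c.index j → M i j = 0}
  add_mem' := fun ha hb i j h => by rw [Matrix.add_apply, ha i j h, hb i j h, add_zero]
  zero_mem' := fun _ _ _ => rfl
  smul_mem' := fun t _ ha i j h => by rw [Matrix.smul_apply, ha i j h, smul_zero]

/-- The block diagonal group `R`. -/
def R : Set (Matrix (Fin n) (Fin n) F) :=
  {r | IsUnit r ∧ ∀ i j, c.index i ≠ c.index j → r i j = 0}

/-- The unipotent radical `N = 1 + J`. -/
def N : Set (Matrix (Fin n) (Fin n) F) := {a | a - 1 ∈ J c F}

/-- `lam` and `lam'` are equivalent: there are `r ∈ R` and `a, b ∈ N` such that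
`lam' x = lam (b r⁻¹ x r a)` for all `x ∈ J`. -/
def Equivalent (lam lam' : J c F →ₗ[F] F) : Prop :=
  ∃ r ∈ R c F, ∃ a ∈ N c F, ∃ b ∈ N c F, ∀ x : J c F,
    ∃ y : J c F, y.1 = b * r⁻¹ * x.1 * r * a ∧ lam' x = lam y

/-- Rook placements: sets of positions strictly above the diagonal blocks, with at most one in each
row and at most one in each column. -/
def IsRook (D : Finset (Fin n × Fin n)) : Prop :=
  (∀ α ∈ D, c.index α.1 < c.index α.2) ∧
    ∀ α ∈ D, ∀ β ∈ D, (α.1 = β.1 ∨ α.2 = β.2) → α = β

/-- The form `x ↦ ∑_{(i,j) ∈ D} x i j`. -/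
def form (D : Finset (Fin n × Fin n)) : J c F →ₗ[F] F where
  toFun x := ∑ α ∈ D, x.1 α.1 α.2
  map_add' x y := by
    rw [← Finset.sum_add_distrib]
    exact Finset.sum_congr rfl fun _ _ => rfl
  map_smul' t x := by
    rw [RingHom.id_apply, smul_eq_mul, Finset.mul_sum]
    exact Finset.sum_congr rfl fun _ _ => rfl

open Pool.Agent.Q109.Rook

theorem up_iff (M : Matrix (Fin n) (Fin n) F) :
    Up (fun i => (c.index i : ℕ)) M ↔ M ∈ J c F := Iff.rfl

theorem result (lam : J c F →ₗ[F] F) :
    ∃ D : Finset (Fin n × Fin n), IsRook c D ∧ Equivalent c F lam (form c F D) := by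
  classical
  obtain ⟨g, hg⟩ := LinearMap.exists_extend lam
  let L : Matrix (Fin n) (Fin n) F := fun j i => g (Matrix.single i j 1)
  have hL : ∀ y : J c F, lam y = Matrix.trace (L * y.1) := by
    intro y
    have h1 : lam y = g y.1 := by
      rw [← hg]; rfl
    rw [h1]
    conv_lhs => rw [Matrix.matrix_eq_sum_single y.1]
    rw [map_sum, Matrix.trace]
    simp only [map_sum]
    rw [Finset.sum_comm]
    refine Finset.sum_congr rfl fun j _ => ?_
    rw [Matrix.diag_apply, Matrix.mul_apply]
    refine Finset.sum_congr rfl fun i _ => ?_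
    have : Matrix.single i j (y.1 i j) = y.1 i j • Matrix.single i j (1 : F) := by
      rw [Matrix.smul_single, smul_eq_mul, mul_one]
    rw [this, map_smul, smul_eq_mul, mul_comm]
  obtain ⟨r, a, b, σ, h1, h2, h3, h4, h5, h6, h7⟩ := factor (fun i => (c.index i : ℕ)) L
  let D : Finset (Fin n × Fin n) := Finset.univ.filter fun α => σ α.1 = some α.2
  refine ⟨D, ⟨?_, ?_⟩, r, ⟨h1, ?_⟩, a, h3, b, h4, ?_⟩
  · intro α hα
    exact h5 _ _ (Finset.mem_filter.1 hα).2
  · rintro ⟨p, q⟩ hα ⟨p', q'⟩ hβ h
    have e1 : σ p = some q := (Finset.mem_filter.1 hα).2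
    have e2 : σ p' = some q' := (Finset.mem_filter.1 hβ).2
    rcases h with h | h
    · change p = p' at h
      subst h
      rw [e1] at e2
      rw [Option.some_injective _ e2]
    · change q = q' at h
      subst h
      rw [h6 p p' q e1 e2]
  · intro i j hij
    exact h2 i j fun h => hij (Fin.ext h)
  · intro x
    have hx : Up (fun i => (c.index i : ℕ)) x.1 := x.2
    have hupw : ∀ M : Matrix (Fin n) (Fin n) F, Up (fun i => (c.index i : ℕ)) (M - 1) →
        Upw (fun i => (c.index i : ℕ)) M := by
      intro M hM p q hpq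
      have hpq' : (c.index q : ℕ) < c.index p := hpq
      have := hM p q (by change ¬ (c.index p : ℕ) < c.index q; omega)
      rw [Matrix.sub_apply, Matrix.one_apply_ne (by rintro rfl; exact lt_irrefl _ hpq),
        sub_zero] at this
      exact this
    have hy : Up (fun i => (c.index i : ℕ)) (b * r⁻¹ * x.1 * r * a) :=
      ((hx.mul' ((hupw b h4).mul ((h2.inv h1).upw))).mul h2.upw).mul (hupw a h3)
    refine ⟨⟨_, hy⟩, rfl, ?_⟩
    rw [hL, h7 x.1 hx]
    change ∑ α ∈ D, x.1 α.1 α.2 = _
    rw [Finset.sum_filter, ← Finset.univ_product_univ, Finset.sum_product]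
    refine Finset.sum_congr rfl fun p _ => ?_
    rcases hs : σ p with _ | q
    · rw [Finset.sum_eq_zero fun q _ => by simp [hs]]
      rfl
    · rw [Finset.sum_eq_single q]
      · rw [if_pos hs]; rfl
      · intro q' _ hq'
        rw [if_neg]
        change ¬ σ p = some q'
        rw [hs]
        exact fun h => hq' (Option.some_injective _ h).symm
      · intro h; exact absurd (Finset.mem_univ q) h

end Pool.Agent.Results.MP_e8bb44_al.RookNormalForm
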